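import Pool.Agent.Helper62K9.DV.Main

set_option autoImplicit false

namespace Pool.Agent.Helper62K9.DV

open Finset

/-- the numerical part -/
theorem numbers {ε : ℝ} (h0 : 0 < ε) (h1 : ε ≤ 1) {n : ℕ} (hn : 144 / ε ^ 2 ≤ n) {M : ℕ}
    (hM : 55296 / ε ^ 4 ≤ M) :
    ∃ a r t : ℕ, (a : ℝ) ≤ ε * n ∧ 0 < r ∧ 2 * t ≤ r ^ 2 ∧ 3 * n * r ≤ a * (a - 1) ∧
      2 * (n * (2 * n + 1)) ≤ t * (M + 2) ∧ 1 + ε ^ 4 / 18432 * (n : ℝ) ^ 2 ≤ t := by
  have hε2 : 0 < ε ^ 2 := by positivity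
  have hε4 : 0 < ε ^ 4 := by positivity
  have hn' : 144 ≤ ε ^ 2 * n := by
    rw [div_le_iff₀ hε2] at hn
    linarith
  have hε2le : ε ^ 2 ≤ ε := by nlinarith
  have hn0 : (0 : ℝ) ≤ n := Nat.cast_nonneg n
  have hεn : 144 ≤ ε * n := hn'.trans (mul_le_mul_of_nonneg_right hε2le hn0)
  have hn1 : (144 : ℝ) ≤ n := by nlinarith
  set a := ⌊ε * n⌋₊ with ha
  set r := ⌊ε ^ 2 * n / 24⌋₊ with hr
  set t := r ^ 2 / 2 with ht
  have ha1 : (a : ℝ) ≤ ε * n := Nat.floor_le (by positivity)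
  have ha2 : ε * n - 1 < a := Nat.sub_one_lt_floor _
  have hr1 : (r : ℝ) ≤ ε ^ 2 * n / 24 := Nat.floor_le (by positivity)
  have hr2 : ε ^ 2 * n / 24 - 1 < r := Nat.sub_one_lt_floor _
  have hr3 : ε ^ 2 * n / 48 ≤ r := by nlinarith
  have hr4 : (2 : ℝ) ≤ r := by linarith
  have hr4' : 2 ≤ r := by exact_mod_cast hr4
  have ht1 : 2 * t ≤ r ^ 2 := by omega
  have ht2 : r ^ 2 ≤ 2 * t + 1 := by omega
  have ht2' : (r : ℝ) ^ 2 ≤ 2 * t + 1 := by exact_mod_cast ht2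
  have ht3 : (r : ℝ) ^ 2 / 4 ≤ t := by nlinarith
  have ht4 : ε ^ 4 / 9216 * (n : ℝ) ^ 2 ≤ t := by
    have h5 : (ε ^ 2 * n / 48) ^ 2 ≤ (r : ℝ) ^ 2 := by
      apply pow_le_pow_left₀ (by positivity) hr3
    calc ε ^ 4 / 9216 * (n : ℝ) ^ 2 = (ε ^ 2 * n / 48) ^ 2 / 4 := by ring
      _ ≤ (r : ℝ) ^ 2 / 4 := by linarith
      _ ≤ t := ht3
  refine ⟨a, r, t, ha1, by omega, ht1, ?_, ?_, ?_⟩
  · have ha3 : (1 : ℝ) ≤ a := by linarith
    have ha3' : 1 ≤ a := by exact_mod_cast ha3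
    have h5 : (3 * n * r : ℝ) ≤ a * (a - 1) := by
      have h6 : ε * n / 2 ≤ a := by linarith
      have h7 : ε * n / 2 ≤ a - 1 := by linarith
      have h8 : (ε * n / 2) * (ε * n / 2) ≤ a * (a - 1) :=
        mul_le_mul h6 h7 (by positivity) (by positivity)
      have h9 : (3 * n * r : ℝ) ≤ 3 * n * (ε ^ 2 * n / 24) :=
        mul_le_mul_of_nonneg_left hr1 (by positivity)
      nlinarith [mul_pos hε2 (show (0 : ℝ) < n ^ 2 by positivity)]
    have h6 : ((3 * n * r : ℕ) : ℝ) ≤ ((a * (a - 1) : ℕ) : ℝ) := by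
      push_cast [Nat.cast_sub ha3']
      exact h5
    exact_mod_cast h6
  · have h5 : ((2 * (n * (2 * n + 1)) : ℕ) : ℝ) ≤ ((t * (M + 2) : ℕ) : ℝ) := by
      push_cast
      have h6 : ε ^ 4 / 9216 * (n : ℝ) ^ 2 * (55296 / ε ^ 4) ≤ t * (M + 2) :=
        mul_le_mul ht4 (by linarith) (by positivity) (by positivity)
      have h7 : ε ^ 4 / 9216 * (n : ℝ) ^ 2 * (55296 / ε ^ 4) = 6 * (n : ℝ) ^ 2 := by
        field_simp
        norm_num
      rw [h7] at h6
      nlinarith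
    exact_mod_cast h5
  · have h5 : (20736 : ℝ) ≤ ε ^ 4 * (n : ℝ) ^ 2 := by
      calc (20736 : ℝ) = 144 * 144 := by norm_num
        _ ≤ (ε ^ 2 * n) * (ε ^ 2 * n) := mul_le_mul hn' hn' (by norm_num) (by positivity)
        _ = ε ^ 4 * (n : ℝ) ^ 2 := by ring
    nlinarith

/-- the lower bound -/
theorem lower (c : ℝ) (hc : c < 2) : ∃ δ : ℝ, 0 < δ ∧
    ∀ (n l : ℕ) (R : Type) [Fintype R] (p : R → ℝ) (ι : R → Type) [∀ r, Fintype (ι r)]
      (D : ∀ r, Circuit (Sym2 (Fin n × Bool)) (ι r)),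
      (∀ r, 0 ≤ p r) → ∑ r, p r = 1 →
      (∀ r, (D r).Decomposable) → (∀ r, (D r).LeafSize l) → (l : ℝ) ≤ 1 + δ * (n : ℝ) ^ 2 →
      (∀ r, ∀ G ∈ matched n, (D r).Accepts (code G) → (vc G : ℝ) ≤ c * n) →
      (∀ G ∈ matched n, vc G = n →
        (2 : ℝ) ^ (-(δ * n)) ≤ ∑ r, Set.indicator {r | (D r).Accepts (code G)} p r) →
      ∃ r, (2 : ℝ) ^ (δ * n) ≤ Fintype.card (ι r) + 1 := by
  classical
  set ε : ℝ := min (2 - c) 1 with hε
  have h0 : 0 < ε := lt_min (by linarith) one_pos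
  have h1 : ε ≤ 1 := min_le_right _ _
  have hεc : ε ≤ 2 - c := min_le_left _ _
  set M : ℕ := ⌈55296 / ε ^ 4⌉₊ with hM
  have hMle : 55296 / ε ^ 4 ≤ M := Nat.le_ceil _
  set K : ℝ := M + 1 with hK
  have hK1 : 1 ≤ K := by
    have : (0 : ℝ) ≤ M := Nat.cast_nonneg M
    linarith
  have hε2 : 0 < ε ^ 2 := by positivity
  have hε4 : 0 < ε ^ 4 := by positivity
  set δ : ℝ := min (ε ^ 4 / 18432) (min (1 / (2 * K ^ 2)) (ε ^ 2 / 144)) with hδ
  have hδ0 : 0 < δ := by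
    refine lt_min (by positivity) (lt_min (by positivity) (by positivity))
  have hδ1 : δ ≤ ε ^ 4 / 18432 := min_le_left _ _
  have hδ2 : δ ≤ 1 / (2 * K ^ 2) := (min_le_right _ _).trans (min_le_left _ _)
  have hδ3 : δ ≤ ε ^ 2 / 144 := (min_le_right _ _).trans (min_le_right _ _)
  refine ⟨δ, hδ0, ?_⟩
  intro n l R _ p ι _ D hp hp1 hD hl hln hsound hcomp
  have hR : Nonempty R := by
    by_contra h
    rw [not_nonempty_iff] at h
    simp at hp1
  by_cases hn : 144 / ε ^ 2 ≤ n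
  swap
  · -- small `n`
    obtain ⟨r⟩ := hR
    refine ⟨r, ?_⟩
    push Not at hn
    have h2 : δ * n ≤ 1 := by
      have : (n : ℝ) ≤ 144 / ε ^ 2 := hn.le
      calc δ * n ≤ ε ^ 2 / 144 * (144 / ε ^ 2) :=
            mul_le_mul hδ3 this (Nat.cast_nonneg n) (by positivity)
        _ = 1 := by field_simp
    have h3 : (1 : ℝ) ≤ Fintype.card (ι r) := by
      have : 0 < Fintype.card (ι r) := Fintype.card_pos_iff.2 ⟨(D r).out⟩
      exact_mod_cast this
    calc (2 : ℝ) ^ (δ * n) ≤ 2 ^ (1 : ℝ) := Real.rpow_le_rpow_of_exponent_le (by norm_num) h2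
      _ = 2 := Real.rpow_one 2
      _ ≤ _ := by linarith
  · obtain ⟨a, r, t, ha, hr, htr, har, hMt, hlt⟩ := numbers h0 h1 hn hMle
    have hn1 : (1 : ℝ) ≤ n := by
      have : (1 : ℝ) ≤ 144 / ε ^ 2 := by
        rw [le_div_iff₀ hε2]
        nlinarith
      linarith
    have hlt' : l ≤ t := by
      have h2 : (l : ℝ) ≤ t := by
        have h3 : δ * (n : ℝ) ^ 2 ≤ ε ^ 4 / 18432 * (n : ℝ) ^ 2 :=
          mul_le_mul_of_nonneg_right hδ1 (by positivity)
        linarith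
      exact_mod_cast h2
    set 𝓕 : R → Finset (Fin n → Bool) := fun q =>
      univ.filter fun σ => (D q).Accepts (code (star σ)) with h𝓕
    set B : ℝ := (2 : ℝ) ^ ((n : ℝ) - δ * n) with hB
    obtain ⟨q, hq⟩ : ∃ q, B ≤ ((𝓕 q).card : ℝ) := by
      by_contra hcon
      push Not at hcon
      have h2 : ∑ q, p q * ((𝓕 q).card : ℝ) = ∑ σ : Fin n → Bool,
          ∑ q, Set.indicator {q | (D q).Accepts (code (star σ))} p q := by
        rw [sum_comm]
        refine sum_congr rfl fun q _ => ?_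
        rw [h𝓕]
        simp only [Set.indicator_apply, Set.mem_ofPred_eq]
        rw [← sum_filter, sum_const, nsmul_eq_mul, mul_comm]
      have h3 : B ≤ ∑ q, p q * ((𝓕 q).card : ℝ) := by
        rw [h2]
        have h4 : ∀ σ ∈ (univ : Finset (Fin n → Bool)), (2 : ℝ) ^ (-(δ * n)) ≤
            ∑ q, Set.indicator {q | (D q).Accepts (code (star σ))} p q := fun σ _ =>
          hcomp (star σ) (star_matched σ) (star_vc σ)
        have h5 := card_nsmul_le_sum (univ : Finset (Fin n → Bool)) _ _ h4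
        refine le_trans (le_of_eq ?_) h5
        rw [card_univ, Fintype.card_fun, Fintype.card_fin, Fintype.card_bool, nsmul_eq_mul, hB]
        push_cast
        rw [← Real.rpow_natCast, ← Real.rpow_add (by norm_num)]
        ring_nf
      have h4 : ∑ q, p q * ((𝓕 q).card : ℝ) < ∑ q, p q * B := by
        have hex : ∃ q, 0 < p q := by
          by_contra hcon'
          push Not at hcon'
          have : ∑ q, p q ≤ 0 := sum_nonpos fun q _ => hcon' q
          linarith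
        obtain ⟨q₀, hq₀⟩ := hex
        refine sum_lt_sum (fun q _ => mul_le_mul_of_nonneg_left (hcon q).le (hp q))
          ⟨q₀, mem_univ _, mul_lt_mul_of_pos_left (hcon q₀) hq₀⟩
      rw [← sum_mul, hp1, one_mul] at h4
      linarith
    refine ⟨q, ?_⟩
    by_contra hcon
    push Not at hcon
    have hleaf : (D q).LeafSize t := fun v S f h => (hl q v S f h).trans hlt'
    have hb := count_bound n a r t M (ι q) (D q) (hD q) hleaf (𝓕 q)
      (fun σ hσ => (mem_filter.1 hσ).2)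
      (fun G hG hacc => by
        have h2 := hsound q G hG hacc
        have h3 : ((vc G + a : ℕ) : ℝ) ≤ ((2 * n : ℕ) : ℝ) := by
          push_cast
          have : ε * n ≤ (2 - c) * n := mul_le_mul_of_nonneg_right hεc (by linarith)
          linarith
        exact_mod_cast h3)
      hr htr har hMt
    have hb' : ((𝓕 q).card : ℝ) ^ (M + 1) * 2 ^ n ≤
        ((Fintype.card (ι q) : ℝ) + 1) ^ (M * (M + 1)) * 2 ^ (n * (M + 1)) := by
      exact_mod_cast hb
    have h2 : B ^ (M + 1) * 2 ^ n ≤ ((𝓕 q).card : ℝ) ^ (M + 1) * 2 ^ n :=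
      mul_le_mul_of_nonneg_right (pow_le_pow_left₀ (by positivity) hq _) (by positivity)
    have h3 : ((Fintype.card (ι q) : ℝ) + 1) ^ (M * (M + 1)) * 2 ^ (n * (M + 1)) ≤
        ((2 : ℝ) ^ (δ * n)) ^ (M * (M + 1)) * 2 ^ (n * (M + 1)) :=
      mul_le_mul_of_nonneg_right (pow_le_pow_left₀ (by positivity) hcon.le _) (by positivity)
    have h4 : (2 : ℝ) ^ (((n : ℝ) - δ * n) * (M + 1) + n) ≤
        (2 : ℝ) ^ (δ * n * (M * (M + 1)) + n * (M + 1)) := by
      have e1 : B ^ (M + 1) * 2 ^ n = (2 : ℝ) ^ (((n : ℝ) - δ * n) * (M + 1) + n) := by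
        rw [hB, ← Real.rpow_natCast, ← Real.rpow_mul (by norm_num), ← Real.rpow_natCast 2 n,
          ← Real.rpow_add (by norm_num)]
        push_cast
        rfl
      have e2 : ((2 : ℝ) ^ (δ * n)) ^ (M * (M + 1)) * 2 ^ (n * (M + 1)) =
          (2 : ℝ) ^ (δ * n * (M * (M + 1)) + n * (M + 1)) := by
        rw [← Real.rpow_natCast, ← Real.rpow_mul (by norm_num), ← Real.rpow_natCast 2,
          ← Real.rpow_add (by norm_num)]
        push_cast
        rfl
      rw [← e1, ← e2]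
      exact h2.trans (hb'.trans h3)
    have h5 : ((n : ℝ) - δ * n) * (M + 1) + n ≤ δ * n * (M * (M + 1)) + n * (M + 1) :=
      (Real.rpow_le_rpow_left_iff (by norm_num)).1 h4
    have h6 : (n : ℝ) ≤ δ * n * K ^ 2 := by
      rw [hK]
      nlinarith
    have h7 : δ * n * K ^ 2 ≤ (n : ℝ) / 2 := by
      have h8 : δ * (2 * K ^ 2) ≤ 1 := by
        calc δ * (2 * K ^ 2) ≤ 1 / (2 * K ^ 2) * (2 * K ^ 2) :=
              mul_le_mul_of_nonneg_right hδ2 (by positivity)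
          _ = 1 := by field_simp
      have h9 : (n : ℝ) * (δ * (2 * K ^ 2)) ≤ n * 1 :=
        mul_le_mul_of_nonneg_left h8 (by linarith)
      linarith
    linarith

end Pool.Agent.Helper62K9.DV
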