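import Mathlib

set_option autoImplicit false

/-!
# Decomposable circuits

Circuits with or-gates of arbitrary fan-in and binary and-gates over leaves that are arbitrary
functions of few variables; decomposable: the two inputs of an and-gate read disjoint sets of
variables.
-/

namespace Pool.Agent.Helper62K9.DV

/-- A gate of a circuit with variables `X` and gates `ι`: a leaf (a function `f` of the variables in
`S`), an or-gate (a disjunction of a finite set of gates) or an and-gate of two gates. -/
inductive Gate (X ι : Type)
  | leaf (S : Finset X) (f : (X → Bool) → Prop)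
  | disj (A : Finset ι)
  | conj (a b : ι)

/-- A circuit: an acyclic network of gates (the rank decreases along every wire) with an output
gate; the function of a leaf depends only on the variables of the leaf. -/
structure Circuit (X ι : Type) where
  /-- the gates -/
  gate : ι → Gate X ι
  /-- the output gate -/
  out : ι
  /-- the rank function -/
  rank : ι → ℕ
  disj_lt : ∀ v A, gate v = .disj A → ∀ a ∈ A, rank a < rank v
  conj_lt : ∀ v a b, gate v = .conj a b → rank a < rank v ∧ rank b < rank v
  local_leaf : ∀ v S f, gate v = .leaf S f → ∀ x y : X → Bool, (∀ e ∈ S, x e = y e) → f x → f y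

variable {X ι : Type}

/-- `D.True x v`: the gate `v` has the value true on the input `x`. -/
inductive Circuit.True (D : Circuit X ι) (x : X → Bool) : ι → Prop
  | leaf (v : ι) (S : Finset X) (f : (X → Bool) → Prop) :
      D.gate v = .leaf S f → f x → D.True x v
  | disj (v : ι) (A : Finset ι) (a : ι) :
      D.gate v = .disj A → a ∈ A → D.True x a → D.True x v
  | conj (v a b : ι) :
      D.gate v = .conj a b → D.True x a → D.True x b → D.True x v

/-- The circuit accepts `x`: its output gate has the value true. -/
def Circuit.Accepts (D : Circuit X ι) (x : X → Bool) : Prop := D.True x D.out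

/-- `D.Reads v e`: the variable `e` occurs in a leaf below the gate `v`. -/
inductive Circuit.Reads (D : Circuit X ι) : ι → X → Prop
  | leaf (v : ι) (S : Finset X) (f : (X → Bool) → Prop) (e : X) :
      D.gate v = .leaf S f → e ∈ S → D.Reads v e
  | disj (v : ι) (A : Finset ι) (a : ι) (e : X) :
      D.gate v = .disj A → a ∈ A → D.Reads a e → D.Reads v e
  | left (v a b : ι) (e : X) : D.gate v = .conj a b → D.Reads a e → D.Reads v e
  | right (v a b : ι) (e : X) : D.gate v = .conj a b → D.Reads b e → D.Reads v e

/-- The circuit is decomposable: the two inputs of an and-gate never read the same variable. -/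
def Circuit.Decomposable (D : Circuit X ι) : Prop :=
  ∀ v a b, D.gate v = .conj a b → ∀ e, D.Reads a e → ¬ D.Reads b e

/-- Every leaf is a function of at most `l` variables. -/
def Circuit.LeafSize (D : Circuit X ι) (l : ℕ) : Prop :=
  ∀ v S f, D.gate v = .leaf S f → S.card ≤ l

/-- certificates -/
inductive Cert [DecidableEq X] (D : Circuit X ι) (x : X → Bool) : ι → Finset X → Prop
  | leaf (v : ι) (S : Finset X) (f : (X → Bool) → Prop) :
      D.gate v = .leaf S f → f x → Cert D x v S
  | disj (v : ι) (A : Finset ι) (a : ι) (L : Finset X) :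
      D.gate v = .disj A → a ∈ A → Cert D x a L → Cert D x v L
  | conj (v a b : ι) (La Lb : Finset X) :
      D.gate v = .conj a b → Cert D x a La → Cert D x b Lb → Cert D x v (La ∪ Lb)

theorem exists_cert [DecidableEq X] {D : Circuit X ι} {x : X → Bool} {v : ι} (h : D.True x v) :
    ∃ L, Cert D x v L := by
  induction h with
  | leaf v S f hv hf => exact ⟨S, .leaf v S f hv hf⟩
  | disj v A a hv ha _ ih =>
    obtain ⟨L, hL⟩ := ih
    exact ⟨L, .disj v A a L hv ha hL⟩
  | conj v a b hv _ _ iha ihb =>
    obtain ⟨La, hLa⟩ := iha
    obtain ⟨Lb, hLb⟩ := ihb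
    exact ⟨La ∪ Lb, .conj v a b La Lb hv hLa hLb⟩

theorem Cert.reads [DecidableEq X] {D : Circuit X ι} {x : X → Bool} {v : ι} {L : Finset X}
    (h : Cert D x v L) : ∀ e ∈ L, D.Reads v e := by
  induction h with
  | leaf v S f hv hf => exact fun e he => .leaf v S f e hv he
  | disj v A a L hv ha _ ih => exact fun e he => .disj v A a e hv ha (ih e he)
  | conj v a b La Lb hv _ _ iha ihb =>
    intro e he
    rcases Finset.mem_union.1 he with he | he
    · exact .left v a b e hv (iha e he)
    · exact .right v a b e hv (ihb e he)

theorem Cert.true_of_agree [DecidableEq X] {D : Circuit X ι} {x y : X → Bool} {v : ι}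
    {L : Finset X} (h : Cert D x v L) (hy : ∀ e ∈ L, y e = x e) : D.True y v := by
  induction h with
  | leaf v S f hv hf => exact .leaf v S f hv (D.local_leaf v S f hv x y (fun e he => (hy e he).symm) hf)
  | disj v A a L hv ha _ ih => exact .disj v A a hv ha (ih hy)
  | conj v a b La Lb hv _ _ iha ihb =>
    exact .conj v a b hv (iha fun e he => hy e (Finset.mem_union_left _ he))
      (ihb fun e he => hy e (Finset.mem_union_right _ he))

/-- replace the gate `w` by the constant true -/
def setTop [DecidableEq ι] (D : Circuit X ι) (w : ι) : Circuit X ι where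
  gate := Function.update D.gate w (.leaf ∅ fun _ => True)
  out := D.out
  rank := D.rank
  disj_lt := by
    intro v A hv a ha
    by_cases h : v = w
    · subst h
      simp at hv
    · rw [Function.update_of_ne h] at hv
      exact D.disj_lt v A hv a ha
  conj_lt := by
    intro v a b hv
    by_cases h : v = w
    · subst h
      simp at hv
    · rw [Function.update_of_ne h] at hv
      exact D.conj_lt v a b hv
  local_leaf := by
    intro v S f hv x y hxy hf
    by_cases h : v = w
    · subst h
      simp only [Function.update_self, Gate.leaf.injEq] at hv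
      rw [← hv.2]
      trivial
    · rw [Function.update_of_ne h] at hv
      exact D.local_leaf v S f hv x y hxy hf

theorem setTop_gate_self [DecidableEq ι] (D : Circuit X ι) (w : ι) :
    (setTop D w).gate w = .leaf ∅ fun _ => True := by
  simp [setTop]

theorem setTop_gate_ne [DecidableEq ι] (D : Circuit X ι) {w v : ι} (h : v ≠ w) :
    (setTop D w).gate v = D.gate v := by
  simp [setTop, Function.update_of_ne h]

theorem setTop_reads [DecidableEq ι] {D : Circuit X ι} {w v : ι} {e : X}
    (h : (setTop D w).Reads v e) : D.Reads v e := by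
  induction h with
  | leaf v S f e hv he =>
    by_cases hvw : v = w
    · subst hvw
      rw [setTop_gate_self] at hv
      simp only [Gate.leaf.injEq] at hv
      rw [← hv.1] at he
      simp at he
    · rw [setTop_gate_ne D hvw] at hv
      exact .leaf v S f e hv he
  | disj v A a e hv ha _ ih =>
    by_cases hvw : v = w
    · subst hvw
      rw [setTop_gate_self] at hv
      cases hv
    · rw [setTop_gate_ne D hvw] at hv
      exact .disj v A a e hv ha ih
  | left v a b e hv _ ih =>
    by_cases hvw : v = w
    · subst hvw
      rw [setTop_gate_self] at hv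
      cases hv
    · rw [setTop_gate_ne D hvw] at hv
      exact .left v a b e hv ih
  | right v a b e hv _ ih =>
    by_cases hvw : v = w
    · subst hvw
      rw [setTop_gate_self] at hv
      cases hv
    · rw [setTop_gate_ne D hvw] at hv
      exact .right v a b e hv ih

theorem setTop_decomposable [DecidableEq ι] {D : Circuit X ι} (hD : D.Decomposable) (w : ι) :
    (setTop D w).Decomposable := by
  intro v a b hv e ha hb
  by_cases hvw : v = w
  · subst hvw
    rw [setTop_gate_self] at hv
    cases hv
  · rw [setTop_gate_ne D hvw] at hv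
    exact hD v a b hv e (setTop_reads ha) (setTop_reads hb)

theorem setTop_leafSize [DecidableEq ι] {D : Circuit X ι} {l : ℕ} (hD : D.LeafSize l) (w : ι) :
    (setTop D w).LeafSize l := by
  intro v S f hv
  by_cases hvw : v = w
  · subst hvw
    rw [setTop_gate_self] at hv
    simp only [Gate.leaf.injEq] at hv
    rw [← hv.1]
    simp
  · rw [setTop_gate_ne D hvw] at hv
    exact hD v S f hv

theorem setTop_true [DecidableEq ι] {D : Circuit X ι} {w : ι} {x : X → Bool} (hw : D.True x w)
    {v : ι} (h : (setTop D w).True x v) : D.True x v := by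
  induction h with
  | leaf v S f hv hf =>
    by_cases hvw : v = w
    · exact hvw ▸ hw
    · rw [setTop_gate_ne D hvw] at hv
      exact .leaf v S f hv hf
  | disj v A a hv ha _ ih =>
    by_cases hvw : v = w
    · exact hvw ▸ hw
    · rw [setTop_gate_ne D hvw] at hv
      exact .disj v A a hv ha ih
  | conj v a b hv _ _ iha ihb =>
    by_cases hvw : v = w
    · exact hvw ▸ hw
    · rw [setTop_gate_ne D hvw] at hv
      exact .conj v a b hv iha ihb

theorem cert_setTop_of_disjoint [DecidableEq X] [DecidableEq ι] {D : Circuit X ι} {w : ι} {e₀ : X}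
    (hw : D.Reads w e₀) {x : X → Bool} {v : ι} {L : Finset X} (h : Cert D x v L)
    (hv : ¬ D.Reads v e₀) : Cert (setTop D w) x v L := by
  induction h with
  | leaf v S f hg hf =>
    have hvw : v ≠ w := fun h => hv (h ▸ hw)
    exact .leaf v S f ((setTop_gate_ne D hvw).trans hg) hf
  | disj v A a L hg ha _ ih =>
    have hvw : v ≠ w := fun h => hv (h ▸ hw)
    exact .disj v A a L ((setTop_gate_ne D hvw).trans hg) ha
      (ih fun h => hv (.disj v A a e₀ hg ha h))
  | conj v a b La Lb hg _ _ iha ihb =>
    have hvw : v ≠ w := fun h => hv (h ▸ hw)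
    exact .conj v a b La Lb ((setTop_gate_ne D hvw).trans hg)
      (iha fun h => hv (.left v a b e₀ hg h)) (ihb fun h => hv (.right v a b e₀ hg h))

theorem cert_setTop_self [DecidableEq X] [DecidableEq ι] (D : Circuit X ι) (w : ι) (x : X → Bool) :
    Cert (setTop D w) x w ∅ :=
  .leaf w ∅ (fun _ => True) (setTop_gate_self D w) trivial

/-- The cut lemma. -/
theorem cut [DecidableEq X] [DecidableEq ι] {D : Circuit X ι} (hD : D.Decomposable) {t : ℕ}
    (ht : D.LeafSize t) {x : X → Bool} {u : ι} {L : Finset X} (h : Cert D x u L)
    (hL : t < L.card) :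
    ∃ (w : ι) (L₁ L₂ : Finset X), L₁ ∪ L₂ = L ∧ Disjoint L₁ L₂ ∧ t < 2 * L₁.card ∧ L₁.card ≤ t ∧
      D.rank w < D.rank u ∧ (∀ e, D.Reads w e → D.Reads u e) ∧ Cert D x w L₁ ∧
      Cert (setTop D w) x u L₂ ∧ ∀ e ∈ L₂, ¬ D.Reads w e := by
  induction h with
  | leaf v S f hv hf => exact absurd (ht v S f hv) (by omega)
  | disj v A a L hv ha _ ih =>
    obtain ⟨w, L₁, L₂, h1, h2, h3, h4, h5, h6, h7, h8, h9⟩ := ih hL
    have hlt := D.disj_lt v A hv a ha
    have hvw : v ≠ w := by
      rintro rfl
      omega
    exact ⟨w, L₁, L₂, h1, h2, h3, h4, by omega, fun e he => .disj v A a e hv ha (h6 e he), h7,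
      .disj v A a L₂ ((setTop_gate_ne D hvw).trans hv) ha h8, h9⟩
  | conj v a b La Lb hv hca hcb iha ihb =>
    have hlt := D.conj_lt v a b hv
    have hdisj : Disjoint La Lb := by
      rw [Finset.disjoint_left]
      intro e he he'
      exact hD v a b hv e (hca.reads e he) (hcb.reads e he')
    have hcard : (La ∪ Lb).card = La.card + Lb.card := Finset.card_union_of_disjoint hdisj
    rw [hcard] at hL
    rcases le_total Lb.card La.card with hle | hle
    · by_cases hat : La.card ≤ t
      · have hne : La.Nonempty := Finset.card_pos.1 (by omega)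
        obtain ⟨e₀, he₀⟩ := hne
        have hva : v ≠ a := by
          rintro rfl
          omega
        refine ⟨a, La, Lb, rfl, hdisj, by omega, hat, hlt.1, fun e he => .left v a b e hv he, hca,
          ?_, fun e he he' => hD v a b hv e he' (hcb.reads e he)⟩
        have := Cert.conj (D := setTop D a) v a b ∅ Lb ((setTop_gate_ne D hva).trans hv)
          (cert_setTop_self D a x)
          (cert_setTop_of_disjoint (hca.reads e₀ he₀) hcb
            (hD v a b hv e₀ (hca.reads e₀ he₀)))
        rwa [Finset.empty_union] at this
      · obtain ⟨w, L₁, L₂, h1, h2, h3, h4, h5, h6, h7, h8, h9⟩ := iha (by omega)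
        have hvw : v ≠ w := by
          rintro rfl
          omega
        have hne : L₁.Nonempty := Finset.card_pos.1 (by omega)
        obtain ⟨e₀, he₀⟩ := hne
        refine ⟨w, L₁, L₂ ∪ Lb, ?_, ?_, h3, h4, by omega, fun e he => .left v a b e hv (h6 e he),
          h7, ?_, ?_⟩
        · rw [← Finset.union_assoc, h1]
        · rw [Finset.disjoint_union_right]
          refine ⟨h2, ?_⟩
          exact hdisj.mono_left (h1 ▸ Finset.subset_union_left)
        · exact .conj v a b L₂ Lb ((setTop_gate_ne D hvw).trans hv) h8
            (cert_setTop_of_disjoint (h7.reads e₀ he₀) hcb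
              (hD v a b hv e₀ (h6 e₀ (h7.reads e₀ he₀))))
        · intro e he
          rcases Finset.mem_union.1 he with he | he
          · exact h9 e he
          · exact fun h => hD v a b hv e (h6 e h) (hcb.reads e he)
    · by_cases hbt : Lb.card ≤ t
      · have hne : Lb.Nonempty := Finset.card_pos.1 (by omega)
        obtain ⟨e₀, he₀⟩ := hne
        have hvb : v ≠ b := by
          rintro rfl
          omega
        refine ⟨b, Lb, La, Finset.union_comm _ _, hdisj.symm, by omega, hbt, hlt.2,
          fun e he => .right v a b e hv he, hcb,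
          ?_, fun e he he' => hD v a b hv e (hca.reads e he) he'⟩
        have := Cert.conj (D := setTop D b) v a b La ∅ ((setTop_gate_ne D hvb).trans hv)
          (cert_setTop_of_disjoint (hcb.reads e₀ he₀) hca
            (fun h => hD v a b hv e₀ h (hcb.reads e₀ he₀)))
          (cert_setTop_self D b x)
        rwa [Finset.union_empty] at this
      · obtain ⟨w, L₁, L₂, h1, h2, h3, h4, h5, h6, h7, h8, h9⟩ := ihb (by omega)
        have hvw : v ≠ w := by
          rintro rfl
          omega
        have hne : L₁.Nonempty := Finset.card_pos.1 (by omega)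
        obtain ⟨e₀, he₀⟩ := hne
        refine ⟨w, L₁, La ∪ L₂, ?_, ?_, h3, h4, by omega, fun e he => .right v a b e hv (h6 e he),
          h7, ?_, ?_⟩
        · rw [← h1, Finset.union_left_comm]
        · rw [Finset.disjoint_union_right]
          refine ⟨?_, h2⟩
          exact hdisj.symm.mono_left (h1 ▸ Finset.subset_union_left)
        · exact .conj v a b La L₂ ((setTop_gate_ne D hvw).trans hv)
            (cert_setTop_of_disjoint (h7.reads e₀ he₀) hca
              (fun h => hD v a b hv e₀ h (h6 e₀ (h7.reads e₀ he₀)))) h8
        · intro e he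
          rcases Finset.mem_union.1 he with he | he
          · exact fun h => hD v a b hv e (hca.reads e he) (h6 e h)
          · exact h9 e he

end Pool.Agent.Helper62K9.DV
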