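import Pool.Agent.Helper62K9.DV.Decomp

set_option autoImplicit false

namespace Pool.Agent.Helper62K9.DV

open Finset

/-- The number of sign vectors with prescribed values. -/
theorem card_agree (n : ℕ) (A : Finset (Fin n × Bool)) :
    (univ.filter fun σ : Fin n → Bool => ∀ v ∈ A, v.2 = σ v.1).card * 2 ^ A.card ≤ 2 ^ n := by
  classical
  set S := univ.filter fun σ : Fin n → Bool => ∀ v ∈ A, v.2 = σ v.1 with hS
  rcases S.eq_empty_or_nonempty with h | ⟨σ₀, hσ₀⟩
  · rw [h]
    simp
  · have h0 : ∀ v ∈ A, v.2 = σ₀ v.1 := by simpa [hS] using hσ₀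
    set B := A.image Prod.fst with hB
    have hBA : B.card = A.card := by
      rw [hB]
      refine card_image_of_injOn ?_
      intro v hv u hu huv
      have h1 := h0 v hv
      have h2 := h0 u hu
      refine Prod.ext huv ?_
      rw [h1, h2, huv]
    have hsub : S ⊆ Fintype.piFinset fun i => if i ∈ B then {σ₀ i} else (univ : Finset Bool) := by
      intro σ hσ
      have h1 : ∀ v ∈ A, v.2 = σ v.1 := by simpa [hS] using hσ
      rw [Fintype.mem_piFinset]
      intro i
      by_cases hi : i ∈ B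
      · simp only [hi, if_true, mem_singleton]
        obtain ⟨v, hv, rfl⟩ := mem_image.1 hi
        rw [← h1 v hv, ← h0 v hv]
      · simp [hi]
    have hcard : (Fintype.piFinset fun i => if i ∈ B then {σ₀ i} else (univ : Finset Bool)).card
        = 2 ^ (univ.filter fun i => i ∉ B).card := by
      rw [Fintype.card_piFinset]
      have : ∀ i, (if i ∈ B then {σ₀ i} else (univ : Finset Bool)).card
          = if i ∈ B then 1 else 2 := by
        intro i
        split_ifs <;> simp
      simp only [this]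
      rw [prod_ite]
      simp
    have hcompl : (univ.filter fun i : Fin n => i ∉ B).card + B.card = n := by
      have h2 : (univ.filter fun i : Fin n => i ∉ B) = Bᶜ := by
        ext i
        simp
      rw [h2, card_compl, Fintype.card_fin]
      have h3 : B.card ≤ n := by simpa using card_le_univ B
      omega
    calc S.card * 2 ^ A.card
        ≤ 2 ^ (univ.filter fun i => i ∉ B).card * 2 ^ A.card :=
          Nat.mul_le_mul_right _ ((card_le_card hsub).trans_eq hcard)
      _ = 2 ^ n := by rw [← pow_add, ← hBA, hcompl]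

/-- Ordered pairs with a given unordered pair. -/
theorem card_pairs_le {V : Type} [DecidableEq V] (O : Finset (V × V)) (S : Finset (Sym2 V))
    (h : ∀ p ∈ O, s(p.1, p.2) ∈ S) : O.card ≤ 2 * S.card := by
  refine card_le_mul_card_image_of_maps_to (f := fun p : V × V => s(p.1, p.2)) h 2 ?_
  intro e _
  induction e using Sym2.ind with
  | _ a b =>
    calc ((O.filter fun p => s(p.1, p.2) = s(a, b))).card ≤ ({(a, b), (b, a)} : Finset (V × V)).card := by
          refine card_le_card ?_
          intro p hp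
          have := (mem_filter.1 hp).2
          rw [Sym2.eq_iff] at this
          rcases this with ⟨h1, h2⟩ | ⟨h1, h2⟩
          · simp [Prod.ext_iff, h1, h2]
          · simp [Prod.ext_iff, h1, h2]
      _ ≤ 2 := card_le_two

open Classical in
/-- The counting lemma. -/
theorem core (n a r t M : ℕ) (F : Finset (Fin n → Bool))
    (P : ℕ → (Fin n → Bool) → Finset (Sym2 (Fin n × Bool)))
    (hr : 0 < r) (htr : 2 * t ≤ r ^ 2) (har : 3 * n * r ≤ a * (a - 1))
    (hP : ∀ i, ∀ σ ∈ F, (P i σ).card ≤ t)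
    (hdis : ∀ i j, i < j → ∀ σ ∈ F, ∀ τ ∈ F, Disjoint (P i σ) (P j τ))
    (hind : ∀ c : Fin (M + 1) → (Fin n → Bool), (∀ i, c i ∈ F) →
      ∃ I : Finset (Fin n × Bool), a ≤ I.card ∧ ∀ u ∈ I, ∀ v ∈ I, u ≠ v →
        ∃ i : Fin (M + 1), s(u, v) ∈ P i (c i) ∧ u.2 = c i u.1 ∧ v.2 = c i v.1) :
    F.card ^ (M + 1) * 2 ^ n ≤ 2 ^ (n * (M + 1)) := by
  have hdis' : ∀ i j, i ≠ j → ∀ σ ∈ F, ∀ τ ∈ F, Disjoint (P i σ) (P j τ) := by
    intro i j hij σ hσ τ hτ
    rcases lt_or_gt_of_ne hij with h | h
    · exact hdis i j h σ hσ τ hτ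
    · exact (hdis j i h τ hτ σ hσ).symm
  -- the vertices of `I` touched by the piece `i`
  set A : ℕ → Finset (Fin n × Bool) → Finset (Fin n × Bool) := fun i I =>
    I.filter fun v => ∃ u ∈ I, u ≠ v ∧ ∃ τ ∈ F, s(v, u) ∈ P i τ with hA
  set good := univ.filter fun I : Finset (Fin n × Bool) =>
    3 * n ≤ ∑ i : Fin (M + 1), (A i I).card with hgood
  set W : Finset (Fin n × Bool) → Fin (M + 1) → Finset (Fin n → Bool) := fun I i =>
    univ.filter fun σ : Fin n → Bool => ∀ v ∈ A i I, v.2 = σ v.1 with hW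
  have hcover : Fintype.piFinset (fun _ : Fin (M + 1) => F) ⊆
      good.biUnion fun I => Fintype.piFinset (W I) := by
    intro c hc
    rw [Fintype.mem_piFinset] at hc
    obtain ⟨I, hIa, hI⟩ := hind c hc
    have hkey : ∀ i : Fin (M + 1), ∀ u ∈ I, ∀ v ∈ I, u ≠ v → (∃ τ ∈ F, s(u, v) ∈ P i τ) →
        s(u, v) ∈ P i (c i) ∧ u.2 = c i u.1 ∧ v.2 = c i v.1 := by
      intro i u hu v hv huv ⟨τ, hτ, hmem⟩
      obtain ⟨j, hj1, hj2, hj3⟩ := hI u hu v hv huv
      have hij : i = j := by
        by_contra hne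
        have hne' : (i : ℕ) ≠ (j : ℕ) := fun h => hne (Fin.ext h)
        exact (Finset.disjoint_left.1 (hdis' i j hne' τ hτ (c j) (hc j))) hmem hj1
      subst hij
      exact ⟨hj1, hj2, hj3⟩
    rw [mem_biUnion]
    refine ⟨I, ?_, ?_⟩
    · rw [hgood, mem_filter]
      refine ⟨mem_univ _, ?_⟩
      set O : Fin (M + 1) → Finset ((Fin n × Bool) × (Fin n × Bool)) := fun i =>
        I.offDiag.filter fun p => s(p.1, p.2) ∈ P i (c i) with hO
      have h1 : I.offDiag ⊆ univ.biUnion O := by
        intro p hp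
        obtain ⟨hp1, hp2, hp3⟩ := mem_offDiag.1 hp
        obtain ⟨i, hi, -, -⟩ := hI p.1 hp1 p.2 hp2 hp3
        rw [mem_biUnion]
        exact ⟨i, mem_univ _, mem_filter.2 ⟨hp, hi⟩⟩
      have h2 : ∀ i, (O i).card ≤ r * (A i I).card := by
        intro i
        have h3 : (O i).card ≤ 2 * t := by
          refine (card_pairs_le (O i) (P i (c i)) fun p hp => (mem_filter.1 hp).2).trans ?_
          exact Nat.mul_le_mul_left 2 (hP i (c i) (hc i))
        have h4 : (O i).card ≤ (A i I).card ^ 2 := by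
          rw [sq, ← card_product]
          refine card_le_card ?_
          intro p hp
          obtain ⟨hp1, hp2⟩ := mem_filter.1 hp
          obtain ⟨hp1, hp3, hp4⟩ := mem_offDiag.1 hp1
          rw [mem_product]
          refine ⟨mem_filter.2 ⟨hp1, p.2, hp3, hp4.symm, c i, hc i, hp2⟩,
            mem_filter.2 ⟨hp3, p.1, hp1, hp4, c i, hc i, ?_⟩⟩
          rw [Sym2.eq_swap]
          exact hp2
        have h5 : (O i).card ^ 2 ≤ (r * (A i I).card) ^ 2 := by
          calc (O i).card ^ 2 = (O i).card * (O i).card := sq _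
            _ ≤ r ^ 2 * (A i I).card ^ 2 := Nat.mul_le_mul (h3.trans htr) h4
            _ = (r * (A i I).card) ^ 2 := by ring
        exact (Nat.pow_le_pow_iff_left (by norm_num)).1 h5
      have h6 : I.card * (I.card - 1) ≤ r * ∑ i : Fin (M + 1), (A i I).card := by
        calc I.card * (I.card - 1) = I.offDiag.card := by
              rw [offDiag_card]
              exact Nat.mul_sub_one _ _
          _ ≤ (univ.biUnion O).card := card_le_card h1
          _ ≤ ∑ i, (O i).card := card_biUnion_le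
          _ ≤ ∑ i : Fin (M + 1), r * (A i I).card := sum_le_sum fun i _ => h2 i
          _ = r * ∑ i : Fin (M + 1), (A i I).card := by rw [mul_sum]
      have h7 : a * (a - 1) ≤ I.card * (I.card - 1) := Nat.mul_le_mul hIa (by omega)
      have h8 : r * (3 * n) ≤ r * ∑ i : Fin (M + 1), (A i I).card := by
        calc r * (3 * n) = 3 * n * r := by ring
          _ ≤ _ := har.trans (h7.trans h6)
      exact Nat.le_of_mul_le_mul_left h8 hr
    · rw [Fintype.mem_piFinset]
      intro i
      rw [hW, mem_filter]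
      refine ⟨mem_univ _, ?_⟩
      intro v hv
      obtain ⟨hv1, u, hu, huv, τ, hτ, hmem⟩ := mem_filter.1 hv
      exact (hkey i v hv1 u hu huv.symm ⟨τ, hτ, hmem⟩).2.1
  have hprod : ∀ I ∈ good, (∏ i, (W I i).card) * 2 ^ (3 * n) ≤ 2 ^ (n * (M + 1)) := by
    intro I hI
    have hI' : 3 * n ≤ ∑ i : Fin (M + 1), (A i I).card := (mem_filter.1 hI).2
    calc (∏ i, (W I i).card) * 2 ^ (3 * n)
        ≤ (∏ i, (W I i).card) * 2 ^ (∑ i : Fin (M + 1), (A i I).card) :=
          Nat.mul_le_mul_left _ (Nat.pow_le_pow_right (by norm_num) hI')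
      _ = ∏ i : Fin (M + 1), ((W I i).card * 2 ^ (A i I).card) := by
          rw [prod_mul_distrib, prod_pow_eq_pow_sum]
      _ ≤ ∏ _i : Fin (M + 1), 2 ^ n := prod_le_prod' fun i _ => card_agree n (A i I)
      _ = 2 ^ (n * (M + 1)) := by
          rw [prod_const, card_univ, Fintype.card_fin, ← pow_mul]
  have hsum : F.card ^ (M + 1) * 2 ^ (3 * n) ≤ 2 ^ (2 * n) * 2 ^ (n * (M + 1)) := by
    calc F.card ^ (M + 1) * 2 ^ (3 * n)
        = (Fintype.piFinset (fun _ : Fin (M + 1) => F)).card * 2 ^ (3 * n) := by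
          rw [Fintype.card_piFinset, prod_const, card_univ, Fintype.card_fin]
      _ ≤ (∑ I ∈ good, (Fintype.piFinset (W I)).card) * 2 ^ (3 * n) :=
          Nat.mul_le_mul_right _ ((card_le_card hcover).trans card_biUnion_le)
      _ = ∑ I ∈ good, (∏ i, (W I i).card) * 2 ^ (3 * n) := by
          rw [sum_mul]
          refine sum_congr rfl fun I _ => ?_
          rw [Fintype.card_piFinset]
      _ ≤ ∑ _I ∈ good, 2 ^ (n * (M + 1)) := sum_le_sum hprod
      _ = good.card * 2 ^ (n * (M + 1)) := by rw [sum_const, smul_eq_mul]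
      _ ≤ 2 ^ (2 * n) * 2 ^ (n * (M + 1)) := by
          refine Nat.mul_le_mul_right _ ?_
          refine (card_le_univ good).trans ?_
          rw [Fintype.card_finset, Fintype.card_prod, Fintype.card_fin, Fintype.card_bool]
          exact Nat.pow_le_pow_right (by norm_num) (by omega)
  have h3 : 2 ^ (2 * n) * (F.card ^ (M + 1) * 2 ^ n) ≤ 2 ^ (2 * n) * 2 ^ (n * (M + 1)) := by
    calc 2 ^ (2 * n) * (F.card ^ (M + 1) * 2 ^ n) = F.card ^ (M + 1) * 2 ^ (3 * n) := by ring
      _ ≤ _ := hsum
  exact Nat.le_of_mul_le_mul_left h3 (by positivity)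

end Pool.Agent.Helper62K9.DV
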