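import Pool.Agent.Helper62K9.DV.Circ

set_option autoImplicit false

namespace Pool.Agent.Helper62K9.DV

open Classical in
/-- The decomposition of a family of accepted inputs into `M + 1` independent pieces. -/
theorem decomp {X ι T : Type} [DecidableEq X] [Fintype ι] (t : ℕ) (x : T → X → Bool) :
    ∀ (M : ℕ) (D : Circuit X ι) (_ : D.Decomposable) (_ : D.LeafSize t) (𝓕 : Finset T)
      (L : T → Finset X), (∀ σ ∈ 𝓕, Cert D (x σ) D.out (L σ)) →
      (∀ σ ∈ 𝓕, 2 * (L σ).card ≤ t * (M + 2)) →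
      ∃ F ⊆ 𝓕, 𝓕.card ≤ (Fintype.card ι + 1) ^ M * F.card ∧
        ∃ P : ℕ → T → Finset X, (∀ i, ∀ σ ∈ F, (P i σ).card ≤ t) ∧
          (∀ i, ∀ σ ∈ F, P i σ ⊆ L σ) ∧
          (∀ i j, i < j → ∀ σ ∈ F, ∀ τ ∈ F, Disjoint (P i σ) (P j τ)) ∧
          (∀ (y : X → Bool) (c : ℕ → T), (∀ i ≤ M, c i ∈ F) →
            (∀ i ≤ M, ∀ e ∈ P i (c i), y e = x (c i) e) → D.Accepts y) := by
  intro M
  induction M with
  | zero =>
    intro D hD ht 𝓕 L hL hc
    refine ⟨𝓕, subset_rfl, by simp, fun i σ => if i = 0 then L σ else ∅, ?_, ?_, ?_, ?_⟩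
    · intro i σ hσ
      by_cases hi : i = 0
      · simp only [hi, if_true]
        have := hc σ hσ
        omega
      · simp [hi]
    · intro i σ hσ
      by_cases hi : i = 0
      · simp [hi]
      · simp [hi]
    · intro i j hij σ hσ τ hτ
      have : j ≠ 0 := by omega
      simp [this]
    · intro y c hcF hy
      have h0 := hL (c 0) (hcF 0 le_rfl)
      exact h0.true_of_agree fun e he => hy 0 le_rfl e (by simpa using he)
  | succ M ih =>
    intro D hD ht 𝓕 L hL hc
    -- one cut for every input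
    have hcut : ∀ σ : T, ∃ (o : Option ι) (L₁ L₂ : Finset X), σ ∈ 𝓕 →
        (o = none → L₁ = ∅ ∧ L₂ = L σ ∧ (L σ).card ≤ t) ∧
        (∀ w, o = some w → L₁ ∪ L₂ = L σ ∧ L₁.card ≤ t ∧ t < 2 * L₁.card ∧ Disjoint L₁ L₂ ∧
          Cert D (x σ) w L₁ ∧ Cert (setTop D w) (x σ) D.out L₂ ∧ ∀ e ∈ L₂, ¬ D.Reads w e) := by
      intro σ
      by_cases hσ : σ ∈ 𝓕
      · by_cases hbig : t < (L σ).card
        · obtain ⟨w, L₁, L₂, h1, h2, h3, h4, -, -, h7, h8, h9⟩ := cut hD ht (hL σ hσ) hbig
          refine ⟨some w, L₁, L₂, fun _ => ⟨by simp, ?_⟩⟩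
          intro w' hw'
          rw [Option.some.injEq] at hw'
          subst hw'
          exact ⟨h1, h4, h3, h2, h7, h8, h9⟩
        · exact ⟨none, ∅, L σ, fun _ => ⟨fun _ => ⟨rfl, rfl, by omega⟩, by simp⟩⟩
      · exact ⟨none, ∅, ∅, fun h => absurd h hσ⟩
    choose o L₁ L₂ hprop using hcut
    -- a popular choice
    obtain ⟨o₀, ho₀⟩ : ∃ o₀ : Option ι,
        𝓕.card ≤ (Fintype.card ι + 1) * (𝓕.filter fun σ => o σ = o₀).card := by
      by_contra hcon
      push Not at hcon
      have h1 : 𝓕.card = ∑ o₀ : Option ι, (𝓕.filter fun σ => o σ = o₀).card :=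
        Finset.card_eq_sum_card_fiberwise fun _ _ => Finset.mem_univ _
      have h2 : (Fintype.card ι + 1) * 𝓕.card
          = ∑ o₀ : Option ι, (Fintype.card ι + 1) * (𝓕.filter fun σ => o σ = o₀).card := by
        rw [← Finset.mul_sum, ← h1]
      have h3 : ∑ o₀ : Option ι, (Fintype.card ι + 1) * (𝓕.filter fun σ => o σ = o₀).card
          < ∑ _o₀ : Option ι, 𝓕.card :=
        Finset.sum_lt_sum_of_nonempty Finset.univ_nonempty fun o₀ _ => hcon o₀
      rw [← h2, Finset.sum_const, Finset.card_univ, Fintype.card_option, smul_eq_mul] at h3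
      exact lt_irrefl _ h3
    set 𝓖 := 𝓕.filter fun σ => o σ = o₀ with h𝓖
    have hmem : ∀ σ ∈ 𝓖, σ ∈ 𝓕 ∧ o σ = o₀ := fun σ hσ => by simpa [h𝓖] using hσ
    rcases Option.eq_none_or_eq_some o₀ with hnone | ⟨w, hw⟩
    · obtain ⟨F, hF𝓖, hFcard, P, hP1, hP2, hP3, hP4⟩ := ih D hD ht 𝓖 L
        (fun σ hσ => hL σ (hmem σ hσ).1)
        (fun σ hσ => by
          have h := ((hprop σ (hmem σ hσ).1).1 ((hmem σ hσ).2.trans hnone)).2.2
          have : t * 2 ≤ t * (M + 2) := Nat.mul_le_mul_left t (by omega)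
          omega)
      refine ⟨F, hF𝓖.trans (Finset.filter_subset _ _), ?_, fun i σ => if i = 0 then ∅ else
        P (i - 1) σ, ?_, ?_, ?_, ?_⟩
      · calc 𝓕.card ≤ (Fintype.card ι + 1) * 𝓖.card := ho₀
          _ ≤ (Fintype.card ι + 1) * ((Fintype.card ι + 1) ^ M * F.card) :=
            Nat.mul_le_mul_left _ hFcard
          _ = (Fintype.card ι + 1) ^ (M + 1) * F.card := by ring
      · intro i σ hσ
        by_cases hi : i = 0
        · simp [hi]
        · simpa [hi] using hP1 (i - 1) σ hσ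
      · intro i σ hσ
        by_cases hi : i = 0
        · simp [hi]
        · simpa [hi] using hP2 (i - 1) σ hσ
      · intro i j hij σ hσ τ hτ
        have hj : j ≠ 0 := by omega
        by_cases hi : i = 0
        · simp [hi]
        · simpa [hi, hj] using hP3 (i - 1) (j - 1) (by omega) σ hσ τ hτ
      · intro y c hcF hy
        refine hP4 y (fun i => c (i + 1)) (fun i hi => hcF (i + 1) (by omega)) ?_
        intro i hi e he
        exact hy (i + 1) (by omega) e (by simpa using he)
    · have hsome : ∀ σ ∈ 𝓖, _ := fun σ hσ =>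
        (hprop σ (hmem σ hσ).1).2 w ((hmem σ hσ).2.trans hw)
      obtain ⟨F, hF𝓖, hFcard, P, hP1, hP2, hP3, hP4⟩ := ih (setTop D w)
        (setTop_decomposable hD w) (setTop_leafSize ht w) 𝓖 L₂
        (fun σ hσ => (hsome σ hσ).2.2.2.2.2.1)
        (fun σ hσ => by
          obtain ⟨h1, h2, h3, h4, -, -, -⟩ := hsome σ hσ
          have h5 := hc σ (hmem σ hσ).1
          have h6 : (L σ).card = (L₁ σ).card + (L₂ σ).card := by
            rw [← h1, Finset.card_union_of_disjoint h4]
          have h7 : t * (M + 1 + 2) = t * (M + 2) + t := by ring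
          omega)
      refine ⟨F, hF𝓖.trans (Finset.filter_subset _ _), ?_, fun i σ => if i = 0 then L₁ σ else
        P (i - 1) σ, ?_, ?_, ?_, ?_⟩
      · calc 𝓕.card ≤ (Fintype.card ι + 1) * 𝓖.card := ho₀
          _ ≤ (Fintype.card ι + 1) * ((Fintype.card ι + 1) ^ M * F.card) :=
            Nat.mul_le_mul_left _ hFcard
          _ = (Fintype.card ι + 1) ^ (M + 1) * F.card := by ring
      · intro i σ hσ
        by_cases hi : i = 0
        · simpa [hi] using (hsome σ (hF𝓖 hσ)).2.1
        · simpa [hi] using hP1 (i - 1) σ hσ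
      · intro i σ hσ
        by_cases hi : i = 0
        · simp only [hi, if_true]
          exact (hsome σ (hF𝓖 hσ)).1 ▸ Finset.subset_union_left
        · simp only [hi, if_false]
          exact (hP2 (i - 1) σ hσ).trans ((hsome σ (hF𝓖 hσ)).1 ▸ Finset.subset_union_right)
      · intro i j hij σ hσ τ hτ
        have hj : j ≠ 0 := by omega
        by_cases hi : i = 0
        · simp only [hi, hj, if_true, if_false]
          rw [Finset.disjoint_left]
          intro e he he'
          exact (hsome τ (hF𝓖 hτ)).2.2.2.2.2.2 e (hP2 (j - 1) τ hτ he')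
            ((hsome σ (hF𝓖 hσ)).2.2.2.2.1.reads e he)
        · simpa [hi, hj] using hP3 (i - 1) (j - 1) (by omega) σ hσ τ hτ
      · intro y c hcF hy
        have h0 := (hsome (c 0) (hF𝓖 (hcF 0 (by omega)))).2.2.2.2.1
        have hwt : D.True y w := h0.true_of_agree fun e he => hy 0 (by omega) e (by simpa using he)
        refine setTop_true hwt (v := D.out) ?_
        refine hP4 y (fun i => c (i + 1)) (fun i hi => hcF (i + 1) (by omega)) ?_
        intro i hi e he
        exact hy (i + 1) (by omega) e (by simpa using he)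

end Pool.Agent.Helper62K9.DV
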