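import Pool.Agent.Helper62K9.DV.Count

set_option autoImplicit false

namespace Pool.Agent.Helper62K9.DV

open Finset

/-- The vertex cover number of a graph. -/
noncomputable def vc {V : Type} (G : SimpleGraph V) : ℕ := G.vertexCoverNum.toNat

open Classical in
/-- A graph as an input: the pair `e` has the value true if it is an edge. -/
noncomputable def code {V : Type} (G : SimpleGraph V) : Sym2 V → Bool :=
  fun e => decide (e ∈ G.edgeSet)

/-- The graphs on the `2n` vertices `(i, b)` that contain the perfect matching formed by the pairs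
`(i, false), (i, true)`. -/
def matched (n : ℕ) : Set (SimpleGraph (Fin n × Bool)) :=
  {G | ∀ i, G.Adj (i, false) (i, true)}

theorem exists_cover {V : Type} [Fintype V] (G : SimpleGraph V) :
    ∃ S : Finset V, S.card = vc G ∧ G.IsVertexCover (S : Set V) := by
  classical
  obtain ⟨s, hs, hc⟩ := SimpleGraph.vertexCoverNum_exists G
  refine ⟨s.toFinset, ?_, by simpa using hc⟩
  rw [vc, ← hs, Set.encard_eq_coe_toFinset_card]
  simp

theorem vc_le {V : Type} [Fintype V] (G : SimpleGraph V) (S : Finset V)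
    (h : G.IsVertexCover (S : Set V)) : vc G ≤ S.card := by
  have h1 := SimpleGraph.IsVertexCover.vertexCoverNum_le h
  rw [Set.encard_coe_eq_coe_finsetCard] at h1
  rw [vc]
  exact ENat.toNat_le_of_le_natCast h1

theorem matched_bounds {n : ℕ} {G : SimpleGraph (Fin n × Bool)} (hG : G ∈ matched n) :
    n ≤ vc G ∧ vc G ≤ 2 * n := by
  classical
  constructor
  · obtain ⟨S, hS, hc⟩ := exists_cover G
    rw [← hS]
    have h1 : (univ : Finset (Fin n)) ⊆ S.image Prod.fst := by
      intro i _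
      rcases hc (hG i) with h | h
      · exact mem_image.2 ⟨_, h, rfl⟩
      · exact mem_image.2 ⟨_, h, rfl⟩
    calc n = (univ : Finset (Fin n)).card := by simp
      _ ≤ (S.image Prod.fst).card := card_le_card h1
      _ ≤ S.card := card_image_le
  · refine (vc_le G univ (by simp)).trans ?_
    rw [card_univ, Fintype.card_prod, Fintype.card_fin, Fintype.card_bool]
    omega

/-- the graph whose non-edges are the pairs inside the set of all `(i, σ i)` -/
def star {n : ℕ} (σ : Fin n → Bool) : SimpleGraph (Fin n × Bool) where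
  Adj u v := u ≠ v ∧ ¬ (u.2 = σ u.1 ∧ v.2 = σ v.1)
  symm := ⟨fun _ _ h => ⟨h.1.symm, fun h' => h.2 ⟨h'.2, h'.1⟩⟩⟩
  loopless := ⟨fun _ h => h.1 rfl⟩

theorem star_matched {n : ℕ} (σ : Fin n → Bool) : star σ ∈ matched n := by
  intro i
  refine ⟨by simp, ?_⟩
  rintro ⟨h1, h2⟩
  simp only at h1 h2
  rw [← h1] at h2
  exact absurd h2 (by simp)

theorem star_vc {n : ℕ} (σ : Fin n → Bool) : vc (star σ) = n := by
  classical
  refine le_antisymm ?_ (matched_bounds (star_matched σ)).1
  have h1 : (star σ).IsVertexCover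
      ((univ.image fun i : Fin n => (i, !σ i) : Finset (Fin n × Bool)) : Set (Fin n × Bool)) := by
    intro u v huv
    simp only [coe_image, coe_univ, Set.image_univ, Set.mem_range]
    by_cases hu : u.2 = σ u.1
    · right
      refine ⟨v.1, ?_⟩
      have hv : v.2 ≠ σ v.1 := fun h => huv.2 ⟨hu, h⟩
      refine Prod.ext rfl ?_
      simp only
      revert hv
      cases v.2 <;> cases σ v.1 <;> simp
    · left
      refine ⟨u.1, ?_⟩
      refine Prod.ext rfl ?_
      simp only
      revert hu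
      cases u.2 <;> cases σ u.1 <;> simp
  refine (vc_le _ _ h1).trans (card_image_le.trans ?_)
  simp

/-- the mixed graph -/
def mixed {n : ℕ} (M : ℕ) (P : ℕ → (Fin n → Bool) → Finset (Sym2 (Fin n × Bool)))
    (c : ℕ → (Fin n → Bool)) : SimpleGraph (Fin n × Bool) where
  Adj u v := u ≠ v ∧ ¬ ∃ i ≤ M, s(u, v) ∈ P i (c i) ∧ u.2 = c i u.1 ∧ v.2 = c i v.1
  symm := ⟨by
    rintro u v ⟨h1, h2⟩
    refine ⟨h1.symm, ?_⟩
    rintro ⟨i, hi, h3, h4, h5⟩
    exact h2 ⟨i, hi, by rw [Sym2.eq_swap]; exact h3, h5, h4⟩⟩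
  loopless := ⟨fun v h => h.1 rfl⟩

theorem mixed_matched {n : ℕ} (M : ℕ) (P : ℕ → (Fin n → Bool) → Finset (Sym2 (Fin n × Bool)))
    (c : ℕ → (Fin n → Bool)) : mixed M P c ∈ matched n := by
  intro i
  refine ⟨by simp, ?_⟩
  rintro ⟨j, -, -, h1, h2⟩
  simp only at h1 h2
  rw [← h1] at h2
  exact absurd h2 (by simp)

/-- The counting bound for one circuit that accepts the graphs `star σ`, `σ ∈ 𝓕`. -/
theorem count_bound (n a r t M : ℕ) (ι : Type) [Fintype ι]
    (D : Circuit (Sym2 (Fin n × Bool)) ι) (hD : D.Decomposable) (hl : D.LeafSize t)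
    (𝓕 : Finset (Fin n → Bool)) (hacc : ∀ σ ∈ 𝓕, D.Accepts (code (star σ)))
    (hsound : ∀ G ∈ matched n, D.Accepts (code G) → vc G + a ≤ 2 * n)
    (hr : 0 < r) (htr : 2 * t ≤ r ^ 2) (har : 3 * n * r ≤ a * (a - 1))
    (hM : 2 * (n * (2 * n + 1)) ≤ t * (M + 2)) :
    𝓕.card ^ (M + 1) * 2 ^ n ≤ (Fintype.card ι + 1) ^ (M * (M + 1)) * 2 ^ (n * (M + 1)) := by
  classical
  have hcert : ∀ σ : Fin n → Bool, ∃ L : Finset (Sym2 (Fin n × Bool)), σ ∈ 𝓕 →
      Cert D (code (star σ)) D.out L := by
    intro σ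
    by_cases hσ : σ ∈ 𝓕
    · obtain ⟨L, hL⟩ := exists_cert (hacc σ hσ)
      exact ⟨L, fun _ => hL⟩
    · exact ⟨∅, fun h => absurd h hσ⟩
  choose L hL using hcert
  have hcardX : Fintype.card (Sym2 (Fin n × Bool)) = n * (2 * n + 1) := by
    rw [Sym2.card, Fintype.card_prod, Fintype.card_fin, Fintype.card_bool, Nat.choose_two_right]
    have : (n * 2 + 1) * (n * 2 + 1 - 1) = (n * (2 * n + 1)) * 2 := by
      simp only [Nat.add_sub_cancel]
      ring
    rw [this, Nat.mul_div_cancel _ (by norm_num)]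
  obtain ⟨F, hF𝓕, hFcard, P, hP1, -, hP3, hP4⟩ := decomp t (fun σ => code (star σ)) M D hD hl 𝓕 L
    hL (fun σ _ => by
      have h1 : (L σ).card ≤ n * (2 * n + 1) := hcardX ▸ card_le_univ (L σ)
      have h2 : 2 * (L σ).card ≤ 2 * (n * (2 * n + 1)) := Nat.mul_le_mul_left 2 h1
      exact h2.trans hM)
  have hcore := core n a r t M F P hr htr har hP1 hP3 (by
    intro c hc
    set c' : ℕ → (Fin n → Bool) := fun i => if h : i < M + 1 then c ⟨i, h⟩ else c 0 with hc'
    have hcF : ∀ i ≤ M, c' i ∈ F := by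
      intro i hi
      have : i < M + 1 := by omega
      simp only [hc', this, dif_pos]
      exact hc _
    have hacc' : D.Accepts (code (mixed M P c')) := by
      refine hP4 _ c' hcF ?_
      intro i hi e he
      induction e using Sym2.ind with
      | _ u v =>
        simp only [code, SimpleGraph.mem_edgeSet, decide_eq_decide]
        constructor
        · rintro ⟨h1, h2⟩
          exact ⟨h1, fun h => h2 ⟨i, hi, he, h.1, h.2⟩⟩
        · rintro ⟨h1, h2⟩
          refine ⟨h1, ?_⟩
          rintro ⟨j, hj, h3, h4, h5⟩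
          have hij : i = j := by
            by_contra hne
            rcases lt_or_gt_of_ne hne with h | h
            · exact (Finset.disjoint_left.1 (hP3 i j h (c' i) (hcF i hi) (c' j) (hcF j hj))) he h3
            · exact (Finset.disjoint_left.1 (hP3 j i h (c' j) (hcF j hj) (c' i) (hcF i hi))) h3 he
          subst hij
          exact h2 ⟨h4, h5⟩
    have hvc := hsound _ (mixed_matched M P c') hacc'
    obtain ⟨S, hS, hSc⟩ := exists_cover (mixed M P c')
    refine ⟨Sᶜ, ?_, ?_⟩
    · rw [card_compl, Fintype.card_prod, Fintype.card_fin, Fintype.card_bool, hS]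
      omega
    · intro u hu v hv huv
      have hnadj : ¬ (mixed M P c').Adj u v := by
        intro h
        rcases hSc h with h' | h'
        · exact (mem_compl.1 hu) h'
        · exact (mem_compl.1 hv) h'
      have : ∃ i ≤ M, s(u, v) ∈ P i (c' i) ∧ u.2 = c' i u.1 ∧ v.2 = c' i v.1 := by
        by_contra hcon
        exact hnadj ⟨huv, hcon⟩
      obtain ⟨i, hi, h3, h4, h5⟩ := this
      have hiM : i < M + 1 := by omega
      have hci : c' i = c ⟨i, hiM⟩ := by
        simp only [hc', hiM, dif_pos]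
      rw [hci] at h3 h4 h5
      exact ⟨⟨i, hiM⟩, h3, h4, h5⟩)
  calc 𝓕.card ^ (M + 1) * 2 ^ n
      ≤ ((Fintype.card ι + 1) ^ M * F.card) ^ (M + 1) * 2 ^ n :=
        Nat.mul_le_mul_right _ (Nat.pow_le_pow_left hFcard _)
    _ = (Fintype.card ι + 1) ^ (M * (M + 1)) * (F.card ^ (M + 1) * 2 ^ n) := by
        rw [mul_pow, ← pow_mul]
        ring
    _ ≤ _ := Nat.mul_le_mul_left _ hcore

end Pool.Agent.Helper62K9.DV
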