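import Pool.Agent.Helper62K9.DV.Main

set_option autoImplicit false

namespace Pool.Agent.Helper62K9.DV

open Finset

section Inversion

variable {X ι : Type} {D : Circuit X ι} {x : X → Bool} {v : ι}

theorem true_leaf {S : Finset X} {f : (X → Bool) → Prop} (h : D.gate v = .leaf S f) :
    D.True x v ↔ f x := by
  refine ⟨fun ht => ?_, fun hf => .leaf v S f h hf⟩
  match ht with
  | .leaf _ S' f' h' hf =>
    rw [h] at h'
    simp only [Gate.leaf.injEq] at h'
    rw [h'.2]
    exact hf
  | .disj _ A a h' _ _ => rw [h] at h'; cases h'
  | .conj _ a b h' _ _ => rw [h] at h'; cases h'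

theorem true_disj {A : Finset ι} (h : D.gate v = .disj A) :
    D.True x v ↔ ∃ a ∈ A, D.True x a := by
  constructor
  · intro ht
    match ht with
    | .leaf _ S' f' h' hf => rw [h] at h'; cases h'
    | .disj _ A' a h' ha hta =>
      rw [h] at h'
      simp only [Gate.disj.injEq] at h'
      exact ⟨a, h' ▸ ha, hta⟩
    | .conj _ a b h' _ _ => rw [h] at h'; cases h'
  · rintro ⟨a, ha, hta⟩
    exact .disj v A a h ha hta

theorem true_conj {a b : ι} (h : D.gate v = .conj a b) :
    D.True x v ↔ D.True x a ∧ D.True x b := by
  constructor
  · intro ht
    match ht with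
    | .leaf _ S' f' h' hf => rw [h] at h'; cases h'
    | .disj _ A' a h' ha hta => rw [h] at h'; cases h'
    | .conj _ a' b' h' hta htb =>
      rw [h] at h'
      simp only [Gate.conj.injEq] at h'
      obtain ⟨rfl, rfl⟩ := h'
      exact ⟨hta, htb⟩
  · rintro ⟨hta, htb⟩
    exact .conj v a b h hta htb

theorem reads_leaf {S : Finset X} {f : (X → Bool) → Prop} (h : D.gate v = .leaf S f) {p : X} :
    D.Reads v p ↔ p ∈ S := by
  refine ⟨fun ht => ?_, fun hf => .leaf v S f p h hf⟩
  match ht with
  | .leaf _ S' f' _ h' hp =>
    rw [h] at h'
    simp only [Gate.leaf.injEq] at h'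
    rw [h'.1]
    exact hp
  | .disj _ A a _ h' _ _ => rw [h] at h'; cases h'
  | .left _ a b _ h' _ => rw [h] at h'; cases h'
  | .right _ a b _ h' _ => rw [h] at h'; cases h'

theorem reads_disj {A : Finset ι} (h : D.gate v = .disj A) {p : X} :
    D.Reads v p ↔ ∃ a ∈ A, D.Reads a p := by
  constructor
  · intro ht
    match ht with
    | .leaf _ S' f' _ h' hf => rw [h] at h'; cases h'
    | .disj _ A' a _ h' ha hta =>
      rw [h] at h'
      simp only [Gate.disj.injEq] at h'
      exact ⟨a, h' ▸ ha, hta⟩
    | .left _ a b _ h' _ => rw [h] at h'; cases h'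
    | .right _ a b _ h' _ => rw [h] at h'; cases h'
  · rintro ⟨a, ha, hta⟩
    exact .disj v A a p h ha hta

theorem reads_conj {a b : ι} (h : D.gate v = .conj a b) {p : X} :
    D.Reads v p ↔ D.Reads a p ∨ D.Reads b p := by
  constructor
  · intro ht
    match ht with
    | .leaf _ S' f' _ h' hf => rw [h] at h'; cases h'
    | .disj _ A' a _ h' ha hta => rw [h] at h'; cases h'
    | .left _ a' b' _ h' hta =>
      rw [h] at h'
      simp only [Gate.conj.injEq] at h'
      obtain ⟨rfl, rfl⟩ := h'
      exact Or.inl hta
    | .right _ a' b' _ h' hta =>
      rw [h] at h'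
      simp only [Gate.conj.injEq] at h'
      obtain ⟨rfl, rfl⟩ := h'
      exact Or.inr hta
  · rintro (hta | hta)
    · exact .left v a b p h hta
    · exact .right v a b p h hta

end Inversion

section Construction

variable (V : Type) [Fintype V] [DecidableEq V] (k : ℕ)

/-- the number of pairs -/
abbrev mm : ℕ := Fintype.card (Sym2 V)

/-- an enumeration of the pairs -/
noncomputable def en : Sym2 V ≃ Fin (mm V) := Fintype.equivFin _

/-- the gates -/
abbrev GT : Type := Option (Sym2 V ⊕ (Finset V × Fin (mm V + 1)))

open Classical in
/-- the gates of the chain of `T` -/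
noncomputable def chain (T : Finset V) : Fin (mm V + 1) → Gate (Sym2 V) (GT V) :=
  Fin.cases (.leaf ∅ fun _ => True) fun i =>
    if (en V).symm i ∈ T.sym2 ∧ ¬ ((en V).symm i).IsDiag then
      .conj (some (.inr (T, i.castSucc))) (some (.inl ((en V).symm i)))
    else .disj {some (.inr (T, i.castSucc))}

open Classical in
/-- the gates of the exact circuit -/
noncomputable def gateE : GT V → Gate (Sym2 V) (GT V)
  | none => .disj ((univ.filter fun T : Finset V => (Tᶜ).card ≤ k).image
      fun T => some (.inr (T, Fin.last _)))
  | some (.inl p) => .leaf {p} fun x => x p = false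
  | some (.inr (T, j)) => chain V T j

/-- the rank -/
def rankE : GT V → ℕ
  | none => mm V + 2
  | some (.inl _) => 0
  | some (.inr (_, j)) => j + 1

/-- the exact circuit -/
noncomputable def exactC : Circuit (Sym2 V) (GT V) where
  gate := gateE V k
  out := none
  rank := rankE V
  disj_lt := by
    intro v A hv a ha
    match v with
    | none =>
      simp only [gateE, Gate.disj.injEq] at hv
      rw [← hv] at ha
      obtain ⟨T, -, rfl⟩ := mem_image.1 ha
      simp [rankE]
    | some (.inl p) => simp [gateE] at hv
    | some (.inr (T, j)) =>
      simp only [gateE] at hv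
      induction j using Fin.cases with
      | zero => simp [chain] at hv
      | succ i =>
        simp only [chain, Fin.cases_succ] at hv
        split_ifs at hv with h
        simp only [Gate.disj.injEq] at hv
        rw [← hv, mem_singleton] at ha
        subst ha
        simp [rankE]
  conj_lt := by
    intro v a b hv
    match v with
    | none => simp [gateE] at hv
    | some (.inl p) => simp [gateE] at hv
    | some (.inr (T, j)) =>
      simp only [gateE] at hv
      induction j using Fin.cases with
      | zero => simp [chain] at hv
      | succ i =>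
        simp only [chain, Fin.cases_succ] at hv
        split_ifs at hv with h
        simp only [Gate.conj.injEq] at hv
        obtain ⟨rfl, rfl⟩ := hv
        simp [rankE]
  local_leaf := by
    intro v S f hv x y hxy hf
    match v with
    | none => simp [gateE] at hv
    | some (.inl p) =>
      simp only [gateE, Gate.leaf.injEq] at hv
      obtain ⟨rfl, rfl⟩ := hv
      simp only [mem_singleton, forall_eq] at hxy
      exact hxy.symm.trans hf
    | some (.inr (T, j)) =>
      simp only [gateE] at hv
      induction j using Fin.cases with
      | zero =>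
        simp only [chain, Fin.cases_zero, Gate.leaf.injEq] at hv
        rw [← hv.2]
        trivial
      | succ i =>
        simp only [chain, Fin.cases_succ] at hv
        split_ifs at hv with h

theorem exactC_reads (T : Finset V) (j : Fin (mm V + 1)) :
    ∀ p, (exactC V k).Reads (some (.inr (T, j))) p → ((en V p : Fin _) : ℕ) < j := by
  induction j using Fin.induction with
  | zero =>
    intro p hp
    have hg : (exactC V k).gate (some (.inr (T, 0))) = .leaf ∅ fun _ => True := by
      simp [exactC, gateE, chain]
    rw [reads_leaf hg] at hp
    simp at hp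
  | succ i ih =>
    intro p hp
    by_cases h : (en V).symm i ∈ T.sym2 ∧ ¬ ((en V).symm i).IsDiag
    · have hg : (exactC V k).gate (some (.inr (T, i.succ))) =
          .conj (some (.inr (T, i.castSucc))) (some (.inl ((en V).symm i))) := by
        simp only [exactC, gateE, chain, Fin.cases_succ]
        rw [if_pos h]
      rw [reads_conj hg] at hp
      rcases hp with hp | hp
      · have := ih p hp
        simp only [Fin.val_castSucc] at this
        simp only [Fin.val_succ]
        omega
      · have hg' : (exactC V k).gate (some (.inl ((en V).symm i))) =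
            .leaf {(en V).symm i} fun x => x ((en V).symm i) = false := rfl
        rw [reads_leaf hg', mem_singleton] at hp
        subst hp
        simp
    · have hg : (exactC V k).gate (some (.inr (T, i.succ))) =
          .disj {some (.inr (T, i.castSucc))} := by
        simp only [exactC, gateE, chain, Fin.cases_succ]
        rw [if_neg h]
      rw [reads_disj hg] at hp
      obtain ⟨a, ha, hp⟩ := hp
      rw [mem_singleton] at ha
      subst ha
      have := ih p hp
      simp only [Fin.val_castSucc] at this
      simp only [Fin.val_succ]
      omega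

theorem exactC_decomposable : (exactC V k).Decomposable := by
  intro v a b hv e ha hb
  match v with
  | none => simp [exactC, gateE] at hv
  | some (.inl p) => simp [exactC, gateE] at hv
  | some (.inr (T, j)) =>
    simp only [exactC, gateE] at hv
    induction j using Fin.cases with
    | zero => simp [chain] at hv
    | succ i =>
      simp only [chain, Fin.cases_succ] at hv
      split_ifs at hv with h
      simp only [Gate.conj.injEq] at hv
      obtain ⟨rfl, rfl⟩ := hv
      have h1 := exactC_reads V k T i.castSucc e ha
      have hg' : (exactC V k).gate (some (.inl ((en V).symm i))) =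
          .leaf {(en V).symm i} fun x => x ((en V).symm i) = false := rfl
      rw [reads_leaf hg', mem_singleton] at hb
      subst hb
      simp at h1

theorem exactC_leafSize : (exactC V k).LeafSize 1 := by
  intro v S f hv
  match v with
  | none => simp [exactC, gateE] at hv
  | some (.inl p) =>
    simp only [exactC, gateE, Gate.leaf.injEq] at hv
    rw [← hv.1]
    simp
  | some (.inr (T, j)) =>
    simp only [exactC, gateE] at hv
    induction j using Fin.cases with
    | zero =>
      simp only [chain, Fin.cases_zero, Gate.leaf.injEq] at hv
      rw [← hv.1]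
      simp
    | succ i =>
      simp only [chain, Fin.cases_succ] at hv
      split_ifs at hv with h

theorem exactC_true (x : Sym2 V → Bool) (T : Finset V) (j : Fin (mm V + 1)) :
    (exactC V k).True x (some (.inr (T, j))) ↔
      ∀ p ∈ T.sym2, ¬ p.IsDiag → ((en V p : Fin _) : ℕ) < j → x p = false := by
  induction j using Fin.induction with
  | zero =>
    have hg : (exactC V k).gate (some (.inr (T, 0))) = .leaf ∅ fun _ => True := by
      simp [exactC, gateE, chain]
    rw [true_leaf hg]
    simp
  | succ i ih =>
    by_cases h : (en V).symm i ∈ T.sym2 ∧ ¬ ((en V).symm i).IsDiag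
    · have hg : (exactC V k).gate (some (.inr (T, i.succ))) =
          .conj (some (.inr (T, i.castSucc))) (some (.inl ((en V).symm i))) := by
        simp only [exactC, gateE, chain, Fin.cases_succ]
        rw [if_pos h]
      have hg' : (exactC V k).gate (some (.inl ((en V).symm i))) =
          .leaf {(en V).symm i} fun x => x ((en V).symm i) = false := rfl
      rw [true_conj hg, ih, true_leaf hg']
      constructor
      · rintro ⟨h1, h2⟩ p hp hd hlt
        simp only [Fin.val_succ] at hlt
        by_cases he : ((en V p : Fin _) : ℕ) = i
        · have : p = (en V).symm i := by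
            rw [Equiv.eq_symm_apply]
            exact Fin.ext he
          rw [this]
          exact h2
        · exact h1 p hp hd (by simp only [Fin.val_castSucc]; omega)
      · intro h1
        refine ⟨fun p hp hd hlt => h1 p hp hd ?_, h1 _ h.1 h.2 (by simp)⟩
        simp only [Fin.val_castSucc] at hlt
        simp only [Fin.val_succ]
        omega
    · have hg : (exactC V k).gate (some (.inr (T, i.succ))) =
          .disj {some (.inr (T, i.castSucc))} := by
        simp only [exactC, gateE, chain, Fin.cases_succ]
        rw [if_neg h]
      rw [true_disj hg]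
      simp only [mem_singleton, exists_eq_left]
      rw [ih]
      constructor
      · rintro h1 p hp hd hlt
        simp only [Fin.val_succ] at hlt
        by_cases he : ((en V p : Fin _) : ℕ) = i
        · have : p = (en V).symm i := by
            rw [Equiv.eq_symm_apply]
            exact Fin.ext he
          subst this
          exact absurd ⟨hp, hd⟩ h
        · exact h1 p hp hd (by simp only [Fin.val_castSucc]; omega)
      · intro h1 p hp hd hlt
        refine h1 p hp hd ?_
        simp only [Fin.val_castSucc] at hlt
        simp only [Fin.val_succ]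
        omega

theorem exactC_accepts (G : SimpleGraph V) : (exactC V k).Accepts (code G) ↔ vc G ≤ k := by
  classical
  have hg : (exactC V k).gate none = .disj ((univ.filter fun T : Finset V => (Tᶜ).card ≤ k).image
      fun T => some (.inr (T, Fin.last _))) := by
    simp only [exactC, gateE]
  change (exactC V k).True (code G) none ↔ _
  rw [true_disj hg]
  constructor
  · rintro ⟨a, ha, ht⟩
    obtain ⟨T, hT, rfl⟩ := mem_image.1 ha
    rw [exactC_true] at ht
    refine le_trans (vc_le G Tᶜ ?_) (mem_filter.1 hT).2
    intro u v huv
    by_contra hcon
    push Not at hcon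
    simp only [coe_compl, Set.mem_compl_iff, mem_coe, not_not] at hcon
    have h1 := ht s(u, v) (by simp [hcon.1, hcon.2]) (by simpa using huv.ne)
      (by simp)
    simp [code] at h1
    exact h1 huv
  · intro hvc
    obtain ⟨S, hS, hc⟩ := exists_cover G
    refine ⟨some (.inr (Sᶜ, Fin.last _)), mem_image.2 ⟨Sᶜ, mem_filter.2 ⟨mem_univ _, ?_⟩, rfl⟩, ?_⟩
    · rw [compl_compl, hS]
      exact hvc
    · rw [exactC_true]
      intro p hp hd _
      induction p using Sym2.ind with
      | _ u v =>
        simp only [mk_mem_sym2_iff, mem_compl] at hp
        simp only [code, decide_eq_false_iff_not, SimpleGraph.mem_edgeSet]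
        intro huv
        rcases hc huv with h | h
        · exact hp.1 h
        · exact hp.2 h

end Construction

/-- the exact circuit for graphs on `2n` vertices -/
theorem upper (n k : ℕ) : ∃ (ι : Type) (_ : Fintype ι) (D : Circuit (Sym2 (Fin n × Bool)) ι),
    Fintype.card ι ≤ (2 * n ^ 2 + n + 1) * (4 ^ n + 1) ∧ D.Decomposable ∧ D.LeafSize 1 ∧
      ∀ G : SimpleGraph (Fin n × Bool), D.Accepts (code G) ↔ vc G ≤ k := by
  classical
  refine ⟨GT (Fin n × Bool), inferInstance, exactC (Fin n × Bool) k, ?_,
    exactC_decomposable _ k, exactC_leafSize _ k, exactC_accepts _ k⟩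
  have hcardX : Fintype.card (Sym2 (Fin n × Bool)) = 2 * n ^ 2 + n := by
    rw [Sym2.card, Fintype.card_prod, Fintype.card_fin, Fintype.card_bool, Nat.choose_two_right]
    have : (n * 2 + 1) * (n * 2 + 1 - 1) = (2 * n ^ 2 + n) * 2 := by
      simp only [Nat.add_sub_cancel]
      ring
    rw [this, Nat.mul_div_cancel _ (by norm_num)]
  rw [Fintype.card_option, Fintype.card_sum, Fintype.card_prod, Fintype.card_finset,
    Fintype.card_fin, mm, hcardX, Fintype.card_prod, Fintype.card_fin, Fintype.card_bool,
    Nat.mul_comm n 2, pow_mul]
  norm_num
  nlinarith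
 
end Pool.Agent.Helper62K9.DV
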